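import Pool.Agent.V8H47.RD.Stab
import Pool.Agent.V8H7.KD.FFs

set_option autoImplicit false

/-! Groups with a dominated boundary matrix are of type FF. -/

namespace Pool.Agent.V8H47.RD

open Matrix MonoidAlgebra TH57.Thr TH57.FF TH57.TT2 Pool.Agent.R719.DD

section Abstract

variable {A : Type} [Ring A] {ι κ : Type} [Fintype ι]

/-- a matrix which projects onto the left kernel, for projective row spaces -/
theorem exists_proj_row [DecidableEq ι] (B : Matrix ι κ A)
    (hP : Module.Projective A (LinearMap.range B.vecMulLinear)) :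
    ∃ Q : Matrix ι ι A, (∀ x, (x ᵥ* Q) ᵥ* B = 0) ∧ ∀ x, x ᵥ* B = 0 → x ᵥ* Q = x := by
  let f : (ι → A) →ₗ[A] (κ → A) := B.vecMulLinear
  obtain ⟨g, hg⟩ := Module.projective_lifting_property f.rangeRestrict LinearMap.id
    f.surjective_rangeRestrict
  have hg' : ∀ y : LinearMap.range f, f (g y) = y := fun y => by
    have h4 := LinearMap.congr_fun hg y
    exact congrArg Subtype.val h4
  obtain ⟨Q, hQ'⟩ := exists_matrix (LinearMap.id - g ∘ₗ f.rangeRestrict)
  refine ⟨Q, fun x => ?_, fun x hx => ?_⟩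
  · rw [hQ']
    change f (x - g (f.rangeRestrict x)) = 0
    rw [map_sub, hg']
    exact sub_self _
  · rw [hQ']
    change x - g (f.rangeRestrict x) = x
    have h4 : f.rangeRestrict x = 0 := Subtype.ext hx
    rw [h4, map_zero, sub_zero]

end Abstract

variable {R : Type} [Ring R] {G : Type} [Group G] {ι κ V : Type} [MulAction G V]
  [Fintype ι]

/-- an idempotent matrix which respects the classes -/
theorem exists_idem_row [DecidableEq ι] {r : V → V → Prop} (hr : IsInv G r) (a : ι → V) (b : κ → V)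
    (A B : Matrix ι κ (MonoidAlgebra R G)) (hB : B = dpart r a b A)
    (hker : ∀ x, x ᵥ* A = 0 ↔ x ᵥ* B = 0)
    (hP : Module.Projective (MonoidAlgebra R G) (LinearMap.range A.vecMulLinear)) :
    ∃ F : Matrix ι ι (MonoidAlgebra R G), F * F = F ∧ dpart r a a F = F ∧
      ∀ x, x ᵥ* A = 0 ↔ x ᵥ* F = 0 := by
  obtain ⟨Q, hQ1, hQ2⟩ := exists_proj_row A hP
  have hQB : Q * B = 0 := by
    ext1 i j
    have h1 : (Pi.single i 1 ᵥ* Q) ᵥ* B = 0 := (hker _).1 (hQ1 _)
    have h2 := congrFun h1 j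
    rw [Matrix.single_one_vecMul] at h2
    exact h2
  let P := dpart r a a Q
  have hPB : P * B = 0 := by
    have h1 := dpart_mul hr a b Q A
    rw [← hB, hQB, dpart_zero] at h1
    exact h1.symm
  have hP2 : ∀ x, x ᵥ* B = 0 → x ᵥ* P = x := by
    intro x hx
    apply eq_of_parts (a := a)
    intro v
    have hv : v ∈ {u | r v u} := hr.eqv.refl v
    have h1 : part a {u | r v u} x ᵥ* P = part a {u | r v u} x := by
      have h2 : part a {u | r v u} x ᵥ* B = 0 := by
        rw [hB, ← part_vecMul_dpart hr a b A v x, ← hB, hx, part_zero]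
      have h3 := part_vecMul' hr a a Q v (part a {u | r v u} x) (part_self a _ x)
      rw [hQ2 _ ((hker _).2 h2), part_self] at h3
      exact h3.symm
    have h4 := part_vecMul_dpart hr a a Q v x
    rw [h1] at h4
    have h5 : ∀ y : ι → MonoidAlgebra R G, part a {v} y = part a {v} (part a {u | r v u} y) := by
      intro y
      rw [part_part, single_inter (T := {u | r v u}) hv]
    rw [h5, h4, part_part, single_inter (T := {u | r v u}) hv]
  have hPP : P * P = P := by
    ext1 i j
    have h1 : (P i) ᵥ* B = 0 := by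
      funext k
      exact congrFun (congrFun hPB i) k
    exact congrFun (hP2 _ h1) j
  refine ⟨1 - P, ?_, ?_, fun x => ?_⟩
  · rw [mul_sub, sub_mul, sub_mul, hPP, one_mul, mul_one, one_mul, sub_self, sub_zero]
  · rw [dpart_sub, dpart_one hr]
    congr 1
    ext1 i j
    change cut _ (cut _ _) = cut _ _
    rw [cut_cut]
    congr 1
    funext g
    exact propext (and_self_iff)
  · rw [hker]
    have h1 : x ᵥ* (1 - P) = x - x ᵥ* P := by
      rw [Matrix.vecMul_sub, Matrix.vecMul_one]
    rw [h1]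
    constructor
    · intro h
      rw [hP2 x h, sub_self]
    · intro h
      rw [sub_eq_zero.1 h, Matrix.vecMul_vecMul, hPB, Matrix.vecMul_zero]

/-- the blocks of an idempotent matrix are idempotent -/
theorem blk_idem (ρ : ι → ι) (t : ι → G) (F : Matrix ι ι (MonoidAlgebra R G)) (hFF : F * F = F)
    (hrow : ∀ i j, F i j ≠ 0 → ρ i = ρ j) (ω : ι) :
    blk ρ t t F ω * blk ρ t t F ω = blk ρ t t F ω := by
  classical
  ext1 i k
  rw [Matrix.mul_apply]
  by_cases hi : ρ i = ω
  · subst hi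
    rw [blk_eq]
    have h5 : ∀ j, blk ρ t t F (ρ i) i j * blk ρ t t F (ρ i) j k
        = single (t i) 1 * (F i j * F j k) * single (t k)⁻¹ 1 := by
      intro j
      rw [blk_eq]
      by_cases hj : ρ j = ρ i
      · rw [← hj, blk_eq]
        have h6 : single (t i) 1 * F i j * single (t j)⁻¹ 1 * (single (t j) 1 * F j k *
            single (t k)⁻¹ 1) = single (t i) 1 * F i j * (single (t j)⁻¹ 1 * (single (t j) 1 *
            F j k)) * single (t k)⁻¹ (1 : R) := by
          simp only [mul_assoc]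
        rw [h6, single_inv_mul]
        simp only [mul_assoc]
      · have h6 : F i j = 0 := by
          by_contra h7
          exact hj (hrow i j h7).symm
        rw [blk_ne ρ t t F j k hj, h6]
        simp
    rw [Finset.sum_congr rfl fun j _ => h5 j, ← Finset.sum_mul, ← Finset.mul_sum]
    congr 2
    have h6 := congrFun (congrFun hFF i) k
    rw [Matrix.mul_apply] at h6
    exact h6
  · rw [blk_ne ρ t t F i k hi]
    refine Finset.sum_eq_zero fun j _ => ?_
    rw [blk_ne ρ t t F i j hi, zero_mul]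

/-- projective row spaces of dominated matrices -/
theorem rows_proj {a : ι → V} {b : κ → V} {A : Matrix ι κ (MonoidAlgebra R G)}
    (h : Dominated a b A)
    (hP : Module.Projective (MonoidAlgebra R G) (LinearMap.range A.vecMulLinear)) :
    ∃ K : ι → Subgroup G, (∀ ω, Over (K ω) (a ω)) ∧
      ∃ F : ∀ ω, Matrix ι ι (MonoidAlgebra R (K ω)), (∀ ω, F ω * F ω = F ω) ∧
        Nonempty (LinearMap.range A.vecMulLinear ≃ₗ[MonoidAlgebra R G]
          ∀ ω, LinearMap.range ((F ω).map (incl (K ω))).vecMulLinear) := by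
  classical
  obtain ⟨r, hr, hf, hk⟩ := exists_rel h
  obtain ⟨ρ, t, ht, hρ⟩ := exists_gauge hr a
  obtain ⟨F, hFF, hFd, hFk⟩ := exists_idem_row hr a b A _ rfl hk hP
  refine ⟨fun ω => stab hr (a ω), fun ω => ⟨stabilizer_le hr _, stab_finiteIndex hr _ (hf _)⟩, ?_⟩
  have hts : ∀ i j (g : G), r (g • a j) (a i) → r (t j • a j) (a (ρ i)) := by
    intro i j g hg
    rw [← hρ j i g hg]
    exact ht j
  have h1 : ∀ ω, ∃ C : Matrix ι ι (MonoidAlgebra R (stab hr (a ω))),
      C.map (incl (stab hr (a ω))) = blk ρ t t F ω := fun ω =>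
    exists_incl_matrix _ _ fun i j g hg =>
      blk_supp hr a a ρ t ht t hts F ω i j g (by rw [hFd]; exact hg)
  choose C hC using h1
  have hcol : ∀ i i' j, F i j ≠ 0 → F i' j ≠ 0 → ρ i = ρ i' := by
    have h2 := dpart_col hr a a ρ hρ F
    rw [hFd] at h2
    exact h2
  have hrow : ∀ i j, F i j ≠ 0 → ρ i = ρ j := by
    intro i j hij
    rw [← hFd] at hij
    by_contra hcon
    apply hij
    apply ext'
    intro g
    unfold dpart
    rw [coeff_cut, if_neg]
    · rfl
    · intro h3
      exact hcon (hρ j i g (hr.eqv.symm h3)).symm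
  obtain ⟨e1⟩ := range_equiv_of_ker A.vecMulLinear F.vecMulLinear hFk
  obtain ⟨e2⟩ := split ρ t t F hcol
  have e3 : LinearMap.range A.vecMulLinear ≃ₗ[MonoidAlgebra R G]
      ∀ ω, LinearMap.range ((C ω).map (incl (stab hr (a ω)))).vecMulLinear :=
    (e1.trans e2).trans (LinearEquiv.piCongrRight fun ω => LinearEquiv.ofEq _ _ (by rw [hC]))
  refine ⟨C, fun ω => ?_, ⟨e3⟩⟩
  have h5 : (C ω * C ω).map (incl (stab hr (a ω))) = (C ω).map (incl (stab hr (a ω))) := by
    rw [Matrix.map_mul, hC, blk_idem ρ t F hFF hrow ω]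
  ext1 i j
  exact incl_injective _ (congrFun (congrFun h5 i) j)

theorem sub_rows (H : Subgroup G) {A : Matrix ι κ (MonoidAlgebra R G)}
    (h : SubDominated H A)
    (hP : Module.Projective (MonoidAlgebra R G) (LinearMap.range A.vecMulLinear)) :
    ∃ K : Subgroup G, H ≤ K ∧ (H.subgroupOf K).FiniteIndex ∧
      ∃ F : Matrix ι ι (MonoidAlgebra R K), F * F = F ∧
        Nonempty (LinearMap.range A.vecMulLinear ≃ₗ[MonoidAlgebra R G]
          LinearMap.range (F.map (incl K)).vecMulLinear) := by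
  classical
  obtain ⟨r, hr, hf, hk⟩ := exists_rel (dominated_of_sub H A h)
  obtain ⟨F, hFF, hFd, hFk⟩ := exists_idem_row hr _ _ A _ rfl hk hP
  have h1 := stabilizer_le hr ((1 : G) : G ⧸ H)
  have h2 := stab_finiteIndex hr ((1 : G) : G ⧸ H) (hf _)
  rw [stabilizer_one] at h1 h2
  obtain ⟨C, hC⟩ := exists_incl_matrix (stab hr ((1 : G) : G ⧸ H)) F (by
    intro i j g hg
    rw [← hFd] at hg
    exact of_dpart (r := r) (a := fun _ : ι => ((1 : G) : G ⧸ H))
      (b := fun _ : ι => ((1 : G) : G ⧸ H)) hg)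
  obtain ⟨e1⟩ := range_equiv_of_ker A.vecMulLinear F.vecMulLinear hFk
  refine ⟨_, h1, h2, C, ?_, ⟨e1.trans (LinearEquiv.ofEq _ _ (by rw [hC]))⟩⟩
  have h5 : (C * C).map (incl (stab hr ((1 : G) : G ⧸ H))) = C.map (incl (stab hr _)) := by
    rw [Matrix.map_mul, hC, hFF]
  ext1 i j
  exact incl_injective _ (congrFun (congrFun h5 i) j)

/-- all finitely generated projective modules over `ℤK` are stably free -/
def AllStF (K : Type) [Group K] : Prop :=
  ∀ (P : Type) [AddCommGroup P] [Module (MonoidAlgebra ℤ K) P],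
    Module.Finite (MonoidAlgebra ℤ K) P → Module.Projective (MonoidAlgebra ℤ K) P →
    StF (MonoidAlgebra ℤ K) P

theorem FF_free {n m k : ℕ} {A : Matrix (Fin m) (Fin k) (MonoidAlgebra ℤ G)} (hA : Bd G n A)
    (htf : ∀ g : G, IsOfFinOrder g → g = 1) {a : Fin m → V} {b : Fin k → V}
    (ha : ∀ i, MulAction.stabilizer G (a i) = ⊥) (h : Dominated a b A) : FFle G (n + 1) := by
  classical
  obtain ⟨B, ⟨e⟩⟩ := rows_free htf ha h
  have h1 : RB (ext1R G B) := by
    have h2 : ext1R G B = B.map (Int.castRingHom (MonoidAlgebra ℤ G)) := by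
      ext1 i j
      change (single 1 (B i j) : MonoidAlgebra ℤ G) = (Int.castRingHom (MonoidAlgebra ℤ G)) (B i j)
      have h3 : (MonoidAlgebra.singleOneRingHom : ℤ →+* MonoidAlgebra ℤ G)
          = Int.castRingHom (MonoidAlgebra ℤ G) := Subsingleton.elim _ _
      rw [← h3]
      rfl
    rw [h2]
    exact RB_int B
  have h2 := FFle_of_FR n A hA 0 (FR_of_RB A (V8H7.KD.RB_of_equiv A (ext1R G B) e.symm h1))
  have h3 : 0 + n + 1 = n + 1 := by ring
  rwa [h3] at h2

theorem FF_of_StF {n m k : ℕ} {A : Matrix (Fin m) (Fin k) (MonoidAlgebra ℤ G)} (hA : Bd G n A)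
    (h : StF (MonoidAlgebra ℤ G) (LinearMap.range A.vecMulLinear)) : FFle G (n + 2) := by
  obtain ⟨a, b, ⟨e⟩⟩ := h
  have h2 := FFle_of_FR n A hA 1 (FR_of_stablyFree a b e)
  have h3 : 1 + n + 1 = n + 2 := by ring
  rwa [h3] at h2

theorem FF_rel {n m k : ℕ} {A : Matrix (Fin m) (Fin k) (MonoidAlgebra ℤ G)} (hA : Bd G n A)
    {a : Fin m → V} {b : Fin k → V} (h : Dominated a b A)
    (hP : Module.Projective (MonoidAlgebra ℤ G) (LinearMap.range A.vecMulLinear))
    (hK : ∀ (K : Subgroup G) (i : Fin m), Over K (a i) → AllStF K) : FFle G (n + 2) := by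
  classical
  obtain ⟨K, hK1, F, hF, ⟨e⟩⟩ := rows_proj h hP
  refine FF_of_StF hA (StF_equiv e (StF_pi _ fun i => ?_))
  obtain ⟨h1, h2⟩ := idem_projective (F i) (hF i)
  exact StF_map (incl (K i)) (F i) (hF i) (hK (K i) i (hK1 i) _ h1 h2)

theorem FF_sub {n m k : ℕ} {A : Matrix (Fin m) (Fin k) (MonoidAlgebra ℤ G)} (hA : Bd G n A)
    (H : Subgroup G) (h : SubDominated H A)
    (hP : Module.Projective (MonoidAlgebra ℤ G) (LinearMap.range A.vecMulLinear))
    (hK : ∀ K : Subgroup G, H ≤ K → (H.subgroupOf K).FiniteIndex → AllStF K) :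
    FFle G (n + 2) := by
  classical
  obtain ⟨K, hK1, hK2, F, hF, ⟨e⟩⟩ := sub_rows H h hP
  obtain ⟨h1, h2⟩ := idem_projective F hF
  exact FF_of_StF hA (StF_equiv e (StF_map (incl K) F hF (hK K hK1 hK2 _ h1 h2)))

end Pool.Agent.V8H47.RD
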