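import Pool.Agent.V8H47.RD.Fin
import Pool.Agent.TH57.Thr.KZero

set_option autoImplicit false

/-! Stably free modules, induction along ring homomorphisms, finite products. -/

namespace Pool.Agent.V8H47.RD

open Matrix TH57.Thr

/-- `M` is stably free -/
def StF (A : Type) [Ring A] (M : Type) [AddCommGroup M] [Module A M] : Prop :=
  ∃ a b : ℕ, Nonempty ((M × (Fin a → A)) ≃ₗ[A] (Fin b → A))

section

variable {A : Type} [Ring A] {ι : Type} [Fintype ι] [DecidableEq ι]

/-- the matrix of a linear map, row vectors -/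
theorem exists_matrix {μ : Type} (q : (ι → A) →ₗ[A] (μ → A)) :
    ∃ Q : Matrix ι μ A, ∀ x, x ᵥ* Q = q x := by
  let Q : Matrix ι μ A := fun i => q (Pi.single i 1)
  have hQ : Q.vecMulLinear = q := by
    apply (Pi.basisFun A ι).ext
    intro j
    rw [Pi.basisFun_apply, Matrix.vecMulLinear_apply, Matrix.single_one_vecMul]
    rfl
  exact ⟨Q, fun x => by rw [← hQ]; rfl⟩

theorem eq_of_vecMul {μ : Type} {P Q : Matrix ι μ A} (h : ∀ x, x ᵥ* P = x ᵥ* Q) : P = Q := by
  ext1 i j
  have h1 := congrFun (h (Pi.single i 1)) j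
  rw [Matrix.single_one_vecMul, Matrix.single_one_vecMul] at h1
  exact h1

theorem mem_range_idem {E : Matrix ι ι A} (hE : E * E = E) {x : ι → A}
    (hx : x ∈ LinearMap.range E.vecMulLinear) : x ᵥ* E = x := by
  obtain ⟨y, rfl⟩ := hx
  change (y ᵥ* E) ᵥ* E = y ᵥ* E
  rw [Matrix.vecMul_vecMul, hE]

theorem SF_of_StF (E : Matrix ι ι A) (hE : E * E = E)
    (h : StF A (LinearMap.range E.vecMulLinear)) : SF E := by
  obtain ⟨a, b, ⟨e⟩⟩ := h
  let f : (ι ⊕ Fin a → A) →ₗ[A] (LinearMap.range E.vecMulLinear × (Fin a → A)) :=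
    LinearMap.prod (E.vecMulLinear.rangeRestrict ∘ₗ LinearMap.funLeft A A Sum.inl)
      (LinearMap.funLeft A A Sum.inr)
  let g : (LinearMap.range E.vecMulLinear × (Fin a → A)) →ₗ[A] (ι ⊕ Fin a → A) :=
    { toFun := fun p => Sum.elim (p.1 : ι → A) p.2
      map_add' := fun p q => by
        funext i
        rcases i with i | i <;> rfl
      map_smul' := fun c p => by
        funext i
        rcases i with i | i <;> rfl }
  have hfg : ∀ p, f (g p) = p := by
    rintro ⟨p, y⟩
    refine Prod.ext (Subtype.ext ?_) rfl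
    exact mem_range_idem hE p.2
  obtain ⟨U, hU⟩ := exists_matrix (e.toLinearMap ∘ₗ f)
  obtain ⟨V, hV⟩ := exists_matrix (g ∘ₗ e.symm.toLinearMap)
  refine ⟨Fin a, Fin b, inferInstance, inferInstance, inferInstance, inferInstance, U, V, ?_, ?_⟩
  · apply eq_of_vecMul
    intro x
    rw [← Matrix.vecMul_vecMul, hV, hU]
    change g (e.symm (e (f x))) = _
    rw [LinearEquiv.symm_apply_apply]
    rw [Matrix.vecMul_fromBlocks]
    funext i
    rcases i with i | i
    · change ((x ∘ Sum.inl) ᵥ* E) i = _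
      simp
    · change x (Sum.inr i) = _
      simp
  · apply eq_of_vecMul
    intro x
    rw [← Matrix.vecMul_vecMul, hU, hV, Matrix.vecMul_one]
    change e (f (g (e.symm x))) = x
    rw [hfg, LinearEquiv.apply_symm_apply]

theorem StF_of_SF (E : Matrix ι ι A) (hE : E * E = E) (h : SF E) :
    StF A (LinearMap.range E.vecMulLinear) := by
  obtain ⟨α, β, i1, i2, i3, i4, U, V, h1, h2⟩ := h
  have h3 : ∀ z : β → A, ((z ᵥ* V) ∘ Sum.inl) ∈ LinearMap.range E.vecMulLinear := by
    intro z
    refine ⟨(z ᵥ* V) ∘ Sum.inl, ?_⟩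
    have h4 : z ᵥ* V = (z ᵥ* V) ᵥ* fromBlocks E 0 0 1 := by
      rw [← h1, ← Matrix.vecMul_vecMul, Matrix.vecMul_vecMul z, h2, Matrix.vecMul_one]
    rw [Matrix.vecMul_fromBlocks] at h4
    funext i
    have h5 := congrFun h4 (Sum.inl i)
    change ((z ᵥ* V) ∘ Sum.inl ᵥ* E) i = (z ᵥ* V) (Sum.inl i)
    rw [h5]
    simp
  let F : (β → A) →ₗ[A] (LinearMap.range E.vecMulLinear × (α → A)) :=
    LinearMap.prod ((LinearMap.funLeft A A Sum.inl ∘ₗ V.vecMulLinear).codRestrict _ h3)
      (LinearMap.funLeft A A Sum.inr ∘ₗ V.vecMulLinear)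
  have hF : Function.Bijective F := by
    constructor
    · rw [injective_iff_map_eq_zero]
      intro z hz
      have h4 : z ᵥ* V = 0 := by
        funext i
        rcases i with i | i
        · exact congrFun (congrArg Subtype.val (congrArg Prod.fst hz)) i
        · exact congrFun (congrArg Prod.snd hz) i
      have h5 : (z ᵥ* V) ᵥ* U = z := by
        rw [Matrix.vecMul_vecMul, h2, Matrix.vecMul_one]
      rw [← h5, h4, Matrix.zero_vecMul]
    · rintro ⟨⟨p, hp⟩, y⟩
      refine ⟨Sum.elim p y ᵥ* U, ?_⟩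
      have h4 : (Sum.elim p y ᵥ* U) ᵥ* V = Sum.elim p y := by
        rw [Matrix.vecMul_vecMul, h1, Matrix.vecMul_fromBlocks]
        funext i
        rcases i with i | i
        · have h5 := congrFun (mem_range_idem hE hp) i
          simpa using h5
        · simp
      refine Prod.ext (Subtype.ext ?_) ?_
      · funext i
        exact congrFun h4 (Sum.inl i)
      · funext i
        exact congrFun h4 (Sum.inr i)
  refine ⟨Fintype.card α, Fintype.card β, ⟨?_⟩⟩
  exact ((LinearEquiv.refl A _).prodCongr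
    (LinearEquiv.funCongrLeft A A (Fintype.equivFin α))).trans
    ((LinearEquiv.ofBijective F hF).symm.trans
      (LinearEquiv.funCongrLeft A A (Fintype.equivFin β).symm))

/-- induction along a ring homomorphism -/
theorem StF_map {B : Type} [Ring B] (φ : A →+* B) (E : Matrix ι ι A) (hE : E * E = E)
    (h : StF A (LinearMap.range E.vecMulLinear)) :
    StF B (LinearMap.range (E.map φ).vecMulLinear) := by
  apply StF_of_SF
  · rw [← Matrix.map_mul, hE]
  · exact SF_map φ E (SF_of_StF E hE h)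

/-- the row space of an idempotent matrix is a finitely generated projective module -/
theorem idem_projective (E : Matrix ι ι A) (hE : E * E = E) :
    Module.Finite A (LinearMap.range E.vecMulLinear) ∧
      Module.Projective A (LinearMap.range E.vecMulLinear) := by
  refine ⟨Module.Finite.range _, ?_⟩
  refine Module.Projective.of_split (LinearMap.range E.vecMulLinear).subtype
    E.vecMulLinear.rangeRestrict ?_
  ext1 x
  apply Subtype.ext
  exact mem_range_idem hE x.2

end

/-- finite products of stably free modules -/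
theorem StF_pi {A : Type} [Ring A] {ι : Type} [Fintype ι] (M : ι → Type)
    [∀ i, AddCommGroup (M i)] [∀ i, Module A (M i)] (h : ∀ i, StF A (M i)) :
    StF A (∀ i, M i) := by
  classical
  choose a b h1 using h
  let e : ∀ i, (M i × (Fin (a i) → A)) ≃ₗ[A] (Fin (b i) → A) := fun i => (h1 i).some
  let e1 : ((∀ i, M i) × (∀ i, Fin (a i) → A)) ≃ₗ[A] ∀ i, (M i × (Fin (a i) → A)) :=
    { toFun := fun p i => (p.1 i, p.2 i)
      map_add' := fun _ _ => rfl
      map_smul' := fun _ _ => rfl
      invFun := fun q => (fun i => (q i).1, fun i => (q i).2)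
      left_inv := fun _ => rfl
      right_inv := fun _ => rfl }
  let e2 : (∀ i, M i × (Fin (a i) → A)) ≃ₗ[A] ∀ i, (Fin (b i) → A) := LinearEquiv.piCongrRight e
  let cur : ∀ c : ι → ℕ, ((Σ i, Fin (c i)) → A) ≃ₗ[A] ∀ i, (Fin (c i) → A) := fun c =>
    { toFun := fun f i j => f ⟨i, j⟩
      map_add' := fun _ _ => rfl
      map_smul' := fun _ _ => rfl
      invFun := fun f x => f x.1 x.2
      left_inv := fun _ => rfl
      right_inv := fun _ => rfl }
  let fin : ∀ c : ι → ℕ, (Fin (Fintype.card (Σ i, Fin (c i))) → A) ≃ₗ[A] ∀ i, (Fin (c i) → A) :=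
    fun c => (LinearEquiv.funCongrLeft A A (Fintype.equivFin (Σ i, Fin (c i)))).trans (cur c)
  exact ⟨_, _, ⟨((LinearEquiv.refl A _).prodCongr (fin a)).trans
    ((e1.trans e2).trans (fin b).symm)⟩⟩

theorem StF_equiv {A : Type} [Ring A] {M N : Type} [AddCommGroup M] [Module A M]
    [AddCommGroup N] [Module A N] (e : M ≃ₗ[A] N) (h : StF A N) : StF A M := by
  obtain ⟨a, b, ⟨f⟩⟩ := h
  exact ⟨a, b, ⟨(e.prodCongr (LinearEquiv.refl A _)).trans f⟩⟩

end Pool.Agent.V8H47.RD
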